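import Pool.Agent.U29.EU.Stm
import Pool.Agent.U741.DS.APRD

set_option autoImplicit false

/-! (APRE) A priori bounds for the truncated systems with a dispersive term, uniform in the
viscosity. -/

namespace Pool.Agent.U876.EU

open Pool.Agent.N983.RT Pool.Agent.U136.DS Pool.Agent.U527.RT Pool.Agent.U741.DS
  Pool.Agent.U29.EU Set

theorem En_le_three {s : ℕ} (hs : s < 3) (n : ℕ) (u : Fld) : En s n u ≤ En 0 n u + En 3 n u := by
  unfold En
  rw [← Finset.sum_add_distrib]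
  refine Finset.sum_le_sum fun k _ => ?_
  have h0 := nsq_nonneg k
  have h1 : nsq k ^ s ≤ nsq k ^ 0 + nsq k ^ 3 := by
    rcases le_total (nsq k) 1 with h | h
    · have h2 : nsq k ^ s ≤ 1 := pow_le_one₀ h0 h
      have h3 : 0 ≤ nsq k ^ 3 := by positivity
      rw [pow_zero]
      linarith
    · have h2 : nsq k ^ s ≤ nsq k ^ 3 := pow_le_pow_right₀ h hs.le
      rw [pow_zero]
      linarith
  have h2 : 0 ≤ ∑ i, ‖u k i‖ ^ 2 := Finset.sum_nonneg fun i _ => by positivity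
  calc nsq k ^ s * ∑ i, ‖u k i‖ ^ 2 ≤ (nsq k ^ 0 + nsq k ^ 3) * ∑ i, ‖u k i‖ ^ 2 :=
        mul_le_mul_of_nonneg_right h1 h2
    _ = _ := by ring

/-- (APRE) a priori bounds for the truncated systems, uniform in the viscosity -/
theorem t_APRE : S_APRE := by
  intro hS hA lam c₁ τ N _ hc₁ hQ hDQ u₀ hadm hr s T
  obtain ⟨M0, hM0, hI0⟩ := init_bound hS hr 0
  -- the energy
  have hE0 : ∀ ν, 0 ≤ ν → ∀ (n : ℕ) (u : ℝ → Fld), IsSolD (cutg n one) ν lam u →
      u 0 = cut n u₀ → (∀ t, 0 ≤ t → ∀ k, k ∉ cub n → u t k = 0) →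
      ∀ t, 0 ≤ t → En 0 n (u t) ≤ M0 := by
    intro ν hν n u hu h0 hsupp t ht
    have h1 := gron (c := 0) (fun t ht => deriv_EnD hu 0 n ht) (fun t ht => by
      rw [(hA one n (u t) arr_one (hu.adm t ht) (hsupp t ht)).2]
      have h2 := Er_nonneg (((0 : ℕ) : ℝ) + 1) n (u t)
      nlinarith [mul_nonneg hν h2]) t ht
    rw [zero_mul, Real.exp_zero, mul_one, h0] at h1
    exact h1.trans (hI0 n)
  -- the other norms
  have hE3 : ∀ s : ℕ, 3 ≤ s → ∃ C : ℝ, ∀ ν, 0 ≤ ν → ν ≤ N → ∀ (n : ℕ) (u : ℝ → Fld),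
      IsSolD (cutg n one) ν lam u → u 0 = cut n u₀ →
      (∀ t, 0 ≤ t → ∀ k, k ∉ cub n → u t k = 0) → ∀ t, 0 ≤ t → t ≤ T → En s n (u t) ≤ C := by
    intro s hs
    obtain ⟨M, hM, hI⟩ := init_bound hS hr s
    obtain ⟨C1, hC1⟩ := hQ s hs M0 (1 / 4) (by norm_num)
    refine ⟨2 * (3 / 2 * M + 8 * |C1|) * Real.exp T, fun ν hν hνN n u hu h0 hsupp t ht htT => ?_⟩
    have hB : ∀ t, 0 ≤ t → |(form (hnf lam c₁ τ) s n (u t)).re| ≤ 1 / 4 * En s n (u t) + |C1| ∧
        |(dform (hnf lam c₁ τ) s n (u t) (rhs (cutg n one) ν 1 (u t))).re| ≤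
          1 / 4 * En s n (u t) + |C1| ∧
        (-Complex.I * form (near lam c₁ τ) s n (u t)).re ≤ |C1| := by
      intro t ht
      obtain ⟨h1, h2, h3⟩ := hC1 ν hν hνN n (u t) (hu.adm t ht) (hsupp t ht)
        (hE0 ν hν n u hu h0 hsupp t ht)
      have h4 := le_abs_self C1
      refine ⟨(Complex.abs_re_le_norm _).trans (h1.trans (by linarith)),
        (Complex.abs_re_le_norm _).trans (h2.trans (by linarith)), ?_⟩
      exact (re_I_le _).trans (h3.trans h4)
    have hd : ∀ t, 0 ≤ t → HasDerivWithinAt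
        (fun t => (En s n (u t) - 2 * (form (hnf lam c₁ τ) s n (u t)).re) + 6 * |C1|)
        ((-2 * ν * Er ((s : ℝ) + 1) n (u t) + 2 * flux (cutg n one) s n (u t)) -
          2 * (-Complex.I * form (far lam c₁ τ) s n (u t) +
            dform (hnf lam c₁ τ) s n (u t) (rhs (cutg n one) ν 1 (u t))).re) (Ici 0) t := by
      intro t ht
      have h1 := deriv_EnD hu s n ht
      have h2 := hDQ lam c₁ τ ν hc₁ s n u hu hsupp t ht
      have h3 := (Complex.reCLM.hasFDerivAt.comp_hasDerivWithinAt t h2)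
      exact (h1.sub (h3.const_mul 2)).add_const _
    have hb : ∀ t, 0 ≤ t → (-2 * ν * Er ((s : ℝ) + 1) n (u t) +
        2 * flux (cutg n one) s n (u t)) -
          2 * (-Complex.I * form (far lam c₁ τ) s n (u t) +
            dform (hnf lam c₁ τ) s n (u t) (rhs (cutg n one) ν 1 (u t))).re ≤
        1 * ((En s n (u t) - 2 * (form (hnf lam c₁ τ) s n (u t)).re) + 6 * |C1|) := by
      intro t ht
      have hz := (hu.adm t ht).zero
      rw [(hA one n (u t) arr_one (hu.adm t ht) (hsupp t ht)).1 s, form_one lam c₁ τ s n hz,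
        mul_add, Complex.add_re, Complex.add_re]
      obtain ⟨h1, h2, h3⟩ := hB t ht
      have h4 := abs_le.1 h1
      have h5 := abs_le.1 h2
      have h6 := Er_nonneg ((s : ℝ) + 1) n (u t)
      have h7 : 0 ≤ ν * Er ((s : ℝ) + 1) n (u t) := mul_nonneg hν h6
      linarith [h4.1, h4.2, h5.1, h5.2]
    have h1 := gron hd hb t ht
    obtain ⟨h2, _, _⟩ := hB t ht
    obtain ⟨h3, _, _⟩ := hB 0 le_rfl
    have h4 := abs_le.1 h2
    have h5 := abs_le.1 h3
    have h6 : En s n (u 0) ≤ M := by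
      rw [h0]
      exact hI n
    have hC0 : 0 ≤ |C1| := abs_nonneg _
    have h7 : (En s n (u 0) - 2 * (form (hnf lam c₁ τ) s n (u 0)).re) + 6 * |C1| ≤
        3 / 2 * M + 8 * |C1| := by linarith [h5.1, h5.2]
    have h8 : Real.exp (1 * t) ≤ Real.exp T := Real.exp_le_exp.2 (by linarith)
    have h9 : ((En s n (u 0) - 2 * (form (hnf lam c₁ τ) s n (u 0)).re) + 6 * |C1|) *
        Real.exp (1 * t) ≤ (3 / 2 * M + 8 * |C1|) * Real.exp T :=
      (mul_le_mul_of_nonneg_right h7 (Real.exp_pos _).le).trans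
        (mul_le_mul_of_nonneg_left h8 (by positivity))
    have h10 := h1.trans h9
    linarith [h4.1, h4.2]
  rcases Nat.lt_or_ge s 3 with h | h
  · obtain ⟨C, hC⟩ := hE3 3 le_rfl
    refine ⟨M0 + C, fun ν hν hνN n u hu h0 hsupp t ht htT => (En_le_three h n (u t)).trans ?_⟩
    exact add_le_add (hE0 ν hν n u hu h0 hsupp t ht) (hC ν hν hνN n u hu h0 hsupp t ht htT)
  · exact hE3 s h

end Pool.Agent.U876.EU
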